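import Mathlib

set_option autoImplicit false

namespace Pool.Agent.Results.MP_6a4cde_an.AllGroups

open Set Filter Topology
open scoped Classical

universe u

/-- `J` is an independence set for the tuple `U`. -/
def Indep {G X : Type u} [Group G] [MulAction G X] {n : ℕ} (U : Fin n → Set X) (J : Set G) : Prop :=
  ∀ I : Finset G, I.Nonempty → (I : Set G) ⊆ J → ∀ σ : G → Fin n, ∃ x : X, ∀ g ∈ I, g • x ∈ U (σ g)

/-- IT-tuples. -/
def IsIT (G : Type u) {X : Type u} [Group G] [MulAction G X] [TopologicalSpace X] {n : ℕ}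
    (x : Fin n → X) : Prop :=
  ∀ U : Fin n → Set X, (∀ i, U i ∈ 𝓝 (x i)) → ∃ J : Set G, J.Infinite ∧ Indep U J

/-- `n`-tameness: no IT-tuple of length `n` has pairwise distinct entries. -/
def NTame (G X : Type u) [Group G] [MulAction G X] [TopologicalSpace X] (n : ℕ) : Prop :=
  ∀ x : Fin n → X, IsIT G x → ¬ Function.Injective x

variable {G : Type u} [Group G]

lemma exists_seq [Infinite G] : ∃ j : ℕ → G, ∀ n a b c, a < n → b < n → c < n →
    j n ≠ j a * (j b)⁻¹ * j c := by
  have h : ∀ F : Finset G, ∃ x : G, ∀ a ∈ F, ∀ b ∈ F, ∀ c ∈ F, x ≠ a * b⁻¹ * c := by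
    intro F
    obtain ⟨x, hx⟩ := Infinite.exists_notMem_finset
      ((F ×ˢ F ×ˢ F).image fun p => p.1 * p.2.1⁻¹ * p.2.2)
    exact ⟨x, fun a ha b hb c hc h => hx (Finset.mem_image.2
      ⟨(a, b, c), by simp [ha, hb, hc], h.symm⟩)⟩
  choose nw hnw using h
  let s : ℕ → Finset G := fun n => Nat.rec ∅ (fun _ F => insert (nw F) F) n
  have hs : ∀ n a, a < n → nw (s a) ∈ s n := by
    intro n
    induction n with
    | zero => simp
    | succ n ih =>
      intro a ha
      rcases Nat.lt_succ_iff_lt_or_eq.1 ha with h | rfl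
      · exact Finset.mem_insert_of_mem (ih a h)
      · exact Finset.mem_insert_self _ _
  exact ⟨fun n => nw (s n), fun n a b c ha hb hc => hnw _ _ (hs n a ha) _ (hs n b hb) _ (hs n c hc)⟩

section
variable {j : ℕ → G}
  (hj : ∀ n a b c, a < n → b < n → c < n → j n ≠ j a * (j b)⁻¹ * j c)
include hj

lemma j_inj : Function.Injective j := by
  intro a b h
  rcases lt_trichotomy a b with hab | hab | hab
  · exact absurd (by simp [h]) (hj b a a a hab hab hab)
  · exact hab
  · exact absurd (by simp [h]) (hj a b b b hab hab hab)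

lemma left_max {u : G} (hu : u ≠ 1) {a b c d : ℕ} (h1 : j a = u * j b) (h2 : j c = u * j d) :
    max a b ≤ max c d := by
  by_contra hcon
  have hab : a ≠ b := by rintro rfl; simp [hu] at h1
  rcases lt_or_gt_of_ne hab with h | h
  · exact hj b d c a (by omega) (by omega) h (by rw [h1, h2]; group)
  · exact hj a c d b (by omega) (by omega) h (by rw [h1, h2]; group)

lemma right_max {v : G} (hv : v ≠ 1) {a b c d : ℕ} (h1 : j a = j b * v) (h2 : j c = j d * v) :
    max a b ≤ max c d := by
  by_contra hcon
  have hab : a ≠ b := by rintro rfl; simp [hv] at h1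
  rcases lt_or_gt_of_ne hab with h | h
  · exact hj b a c d h (by omega) (by omega) (by rw [h1, h2]; group)
  · exact hj a b d c h (by omega) (by omega) (by rw [h1, h2]; group)

lemma right_bd {v : G} (hv : v ≠ 1) : ∃ M, ∀ a b, j a = j b * v → b ≤ M := by
  by_cases h : ∃ c d, j c = j d * v
  · obtain ⟨c, d, h⟩ := h
    exact ⟨max c d, fun a b hab => (le_max_right a b).trans (right_max hj hv hab h)⟩
  · exact ⟨0, fun a b hab => absurd ⟨a, b, hab⟩ h⟩

lemma uniq {h h' : G} (p : Fin 3 → G) (hp : Function.Injective p) (h1 : ∀ l, ∃ n, p l = h * j n)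
    (h2 : ∀ l, ∃ n, p l = h' * j n) : h = h' := by
  by_contra hne
  have hu : h⁻¹ * h' ≠ 1 := fun e => hne (inv_mul_eq_one.1 e)
  choose a ha using h1
  choose b hb using h2
  have e : ∀ l, j (a l) = h⁻¹ * h' * j (b l) := fun l => by
    rw [mul_assoc, ← hb, ha]; group
  have n1 : ∀ l l', l ≠ l' → a l ≠ a l' := fun l l' hl h => hl (hp (by rw [ha, ha, h]))
  have n2 : ∀ l l', l ≠ l' → b l ≠ b l' := fun l l' hl h => hl (hp (by rw [hb, hb, h]))
  have m := fun l l' => left_max hj hu (e l) (e l')
  have := m 0 1; have := m 1 0; have := m 0 2; have := m 2 0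
  have := n1 0 1 (by decide); have := n1 0 2 (by decide); have := n1 1 2 (by decide)
  have := n2 0 1 (by decide); have := n2 0 2 (by decide); have := n2 1 2 (by decide)
  omega

end

def XS (j : ℕ → G) : Set (G → Bool) := {x | ∃ g, ∀ t, x t = true → ∃ n, t = g * j n}

lemma XS_closed {j : ℕ → G}
    (hj : ∀ n a b c, a < n → b < n → c < n → j n ≠ j a * (j b)⁻¹ * j c) : IsClosed (XS j) := by
  refine isClosed_of_closure_subset fun x hx => ?_
  by_cases h : ∃ p q, p ≠ q ∧ x p = true ∧ x q = true
  · obtain ⟨p, q, hpq, hp, hq⟩ := h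
    obtain ⟨M, hM⟩ := right_bd hj (v := p⁻¹ * q) (fun e => hpq (inv_mul_eq_one.1 e))
    have ho : IsOpen {y : G → Bool | y p = true ∧ y q = true} :=
      ((isOpen_discrete {true}).preimage (continuous_apply (A := fun _ : G => Bool) p)).inter
        ((isOpen_discrete {true}).preimage (continuous_apply (A := fun _ : G => Bool) q))
    have hc : IsClosed (⋃ b : Fin (M + 1),
        {y : G → Bool | ∀ t, y t = true → ∃ n, t = p * (j b)⁻¹ * j n}) := by
      refine isClosed_iUnion_of_finite fun b => ?_
      have : {y : G → Bool | ∀ t, y t = true → ∃ n, t = p * (j b)⁻¹ * j n} =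
          ⋂ t, (fun y : G → Bool => y t) ⁻¹' {s | s = true → ∃ n, t = p * (j b)⁻¹ * j n} := by
        ext y; simp
      rw [this]
      exact isClosed_iInter fun t => (isClosed_discrete _).preimage (continuous_apply t)
    have h1 := closure_minimal (t := ⋃ b : Fin (M + 1),
        {y : G → Bool | ∀ t, y t = true → ∃ n, t = p * (j b)⁻¹ * j n}) ?_ hc
        (ho.inter_closure ⟨⟨hp, hq⟩, hx⟩)
    · obtain ⟨b, hb⟩ := mem_iUnion.1 h1
      exact ⟨_, hb⟩
    · rintro y ⟨⟨h1, h2⟩, g, hg⟩
      obtain ⟨b, hb⟩ := hg p h1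
      obtain ⟨a, ha⟩ := hg q h2
      have := hM a b (by rw [ha, hb]; group)
      refine mem_iUnion.2 ⟨⟨b, by omega⟩, fun t ht => ?_⟩
      obtain ⟨n, hn⟩ := hg t ht
      exact ⟨n, by rw [hn, hb]; group⟩
  · push Not at h
    by_cases h2 : ∃ p, x p = true
    · obtain ⟨p, hp⟩ := h2
      refine ⟨p * (j 0)⁻¹, fun t ht => ⟨0, ?_⟩⟩
      have : p = t := by
        by_contra hne
        exact h p t hne hp ht
      rw [this]; group
    · exact ⟨1, fun t ht => absurd ⟨t, ht⟩ h2⟩

instance (j : ℕ → G) : MulAction G (XS j) where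
  smul g x := ⟨fun t => x.1 (g⁻¹ * t), by
    obtain ⟨h, hh⟩ := x.2
    refine ⟨g * h, fun t ht => ?_⟩
    obtain ⟨n, hn⟩ := hh _ ht
    exact ⟨n, by rw [mul_assoc, ← hn]; group⟩⟩
  one_smul x := Subtype.ext (funext fun t => by
    change x.1 (1⁻¹ * t) = x.1 t
    simp)
  mul_smul g h x := Subtype.ext (funext fun t => by
    change x.1 ((g * h)⁻¹ * t) = x.1 (h⁻¹ * (g⁻¹ * t))
    rw [mul_inv_rev, mul_assoc])

lemma smul_val {j : ℕ → G} (g : G) (x : XS j) (t : G) : (g • x).1 t = x.1 (g⁻¹ * t) := rfl

instance (j : ℕ → G) : ContinuousConstSMul G (XS j) where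
  continuous_const_smul g := Continuous.subtype_mk (continuous_pi fun t =>
    (continuous_apply (A := fun _ : G => Bool) (g⁻¹ * t)).comp continuous_subtype_val) _

lemma window {j : ℕ → G} {U : Set (XS j)} {x : XS j} (hU : U ∈ 𝓝 x) :
    ∃ W : Finset G, ∀ y : XS j, (∀ t ∈ W, y.1 t = x.1 t) → y ∈ U := by
  rw [nhds_subtype_eq_comap, mem_comap] at hU
  obtain ⟨V, hV, hVU⟩ := hU
  rw [nhds_pi, mem_pi'] at hV
  obtain ⟨W, s, hs, h⟩ := hV
  exact ⟨W, fun y hy => hVU (h fun t ht => by rw [hy t ht]; exact mem_of_mem_nhds (hs t))⟩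

theorem result (G : Type u) [Group G] [Countable G] [Infinite G] :
    ∃ (X : Type u) (_ : MetricSpace X) (_ : CompactSpace X) (_ : MulAction G X)
      (_ : ContinuousConstSMul G X), NTame G X 3 ∧ ¬ NTame G X 2 := by
  obtain ⟨j, hj⟩ := exists_seq (G := G)
  refine ⟨XS j, TopologicalSpace.metrizableSpaceMetric _,
    (isCompact_iff_compactSpace.1 (XS_closed hj).isCompact : CompactSpace (XS j)),
    inferInstance, (inferInstance : ContinuousConstSMul G (XS j)), fun x hx hinj => ?_, fun h => ?_⟩
  · obtain ⟨i, k, a, b, hik, hab, ha, hb⟩ : ∃ i k a b, i ≠ k ∧ a ≠ b ∧ (x i).1 a = true ∧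
        (x k).1 b = true := by
      have key : ∀ i k, i ≠ k → (∃ a, (x i).1 a = true) → (∃ b, (x k).1 b = true) →
          ∃ i k a b, i ≠ k ∧ a ≠ b ∧ (x i).1 a = true ∧ (x k).1 b = true := by
        rintro i k hik ⟨a, ha⟩ ⟨b, hb⟩
        by_contra hc
        push Not at hc
        refine hik (hinj (Subtype.ext (funext fun t => ?_)))
        have e : a = b := by
          by_contra hne
          exact hc i k a b hik hne ha hb
        rw [Bool.eq_iff_iff]
        constructor
        · intro ht
          by_cases htb : t = b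
          · rw [htb]; exact hb
          · exact absurd hb (hc i k t b hik htb ht)
        · intro ht
          by_cases hta : a = t
          · rw [← hta]; exact ha
          · exact absurd ht (hc i k a t hik hta ha)
      have emp : ∀ i k, i ≠ k → (∃ a, (x i).1 a = true) ∨ ∃ b, (x k).1 b = true := by
        intro i k hik
        by_contra hc
        push Not at hc
        refine hik (hinj (Subtype.ext (funext fun t => ?_)))
        rw [Bool.eq_iff_iff]
        exact ⟨fun h => absurd h (hc.1 t), fun h => absurd h (hc.2 t)⟩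
      rcases emp 0 1 (by decide) with h0 | h1
      · rcases emp 1 2 (by decide) with h | h
        · exact key 0 1 (by decide) h0 h
        · exact key 0 2 (by decide) h0 h
      · rcases emp 0 2 (by decide) with h | h
        · exact key 0 1 (by decide) h h1
        · exact key 1 2 (by decide) h1 h
    have ho : ∀ t, IsOpen {y : XS j | y.1 t = true} := fun t => (isOpen_discrete {true}).preimage
      ((continuous_apply (A := fun _ : G => Bool) t).comp continuous_subtype_val)
    obtain ⟨J, hJ, hI⟩ := hx (fun l => if l = i then {y : XS j | y.1 a = true} else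
        if l = k then {y : XS j | y.1 b = true} else univ) (fun l => by
      split_ifs with h1 h2
      · rw [h1]; exact (ho a).mem_nhds ha
      · rw [h2]; exact (ho b).mem_nhds hb
      · exact univ_mem)
    let e : Fin 3 → G := fun l => hJ.natEmbedding J l
    have he : Function.Injective e := fun l l' h =>
      Fin.ext ((hJ.natEmbedding J).injective (Subtype.ext h))
    have hp : Function.Injective fun l => (e l)⁻¹ * a := fun l l' h => he (by simpa using h)
    have key : ∀ g ∈ J, g ∉ range e → ∀ c, (c = a ∨ c = b) → ∃ h : G,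
        (∀ l, ∃ n, (e l)⁻¹ * a = h * j n) ∧ ∃ n, g⁻¹ * c = h * j n := by
      intro g hg hge c hc
      obtain ⟨y, hy⟩ := hI (insert g (Finset.univ.image e)) (Finset.insert_nonempty _ _)
        (by
          intro t ht
          simp only [Finset.coe_insert, Finset.coe_image, mem_insert_iff] at ht
          rcases ht with rfl | ⟨l, -, rfl⟩
          · exact hg
          · exact (hJ.natEmbedding J l).2)
        (fun t => if t = g ∧ c = b then k else i)
      obtain ⟨h, hh⟩ := y.2
      refine ⟨h, fun l => hh _ ?_, hh _ ?_⟩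
      · have h1 := hy (e l) (by simp)
        have h2 : e l ≠ g := fun h => hge ⟨l, h⟩
        simpa [h2, smul_val] using h1
      · have h1 := hy g (by simp)
        rcases hc with rfl | rfl
        · simpa [hab, smul_val] using h1
        · simpa [hik.symm, smul_val] using h1
    obtain ⟨M, hM⟩ := right_bd hj (v := a⁻¹ * b) (fun e => hab (inv_mul_eq_one.1 e))
    have hinf := hJ.diff (finite_range e)
    obtain ⟨g0, hg0, hg0'⟩ := hinf.nonempty
    obtain ⟨h0, hh0, -⟩ := key g0 hg0 hg0' a (Or.inl rfl)
    refine hinf ((finite_range fun n : Fin (M + 1) => a * (h0 * j n)⁻¹).subset ?_)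
    rintro g ⟨hg, hg'⟩
    obtain ⟨h1, e1, n, hn⟩ := key g hg hg' a (Or.inl rfl)
    obtain ⟨h2, e2, m, hm⟩ := key g hg hg' b (Or.inr rfl)
    rw [← uniq hj _ hp hh0 e1] at hn
    rw [← uniq hj _ hp hh0 e2] at hm
    have := hM m n (by
      have e3 : j m = h0⁻¹ * (g⁻¹ * b) := by rw [hm]; group
      have e4 : j n = h0⁻¹ * (g⁻¹ * a) := by rw [hn]; group
      rw [e3, e4]; group)
    exact ⟨⟨n, by omega⟩, by simp only; rw [← hn]; group⟩
  · let x0 : XS j := ⟨fun _ => false, 1, fun t ht => by simp at ht⟩
    let x1 : XS j := ⟨fun t => decide (t = 1), (j 0)⁻¹, fun t ht => ⟨0, by simpa using ht⟩⟩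
    refine h ![x0, x1] (fun U hU => ?_) ?_
    · obtain ⟨W0, h0⟩ := window (hU 0)
      obtain ⟨W1, h1⟩ := window (hU 1)
      obtain ⟨M, hM⟩ : ∃ M, ∀ v ∈ W0 ∪ W1, v ≠ 1 → ∀ a b, j a = j b * v → b ≤ M := by
        have : ∀ v : G, ∃ M, v ≠ 1 → ∀ a b, j a = j b * v → b ≤ M := fun v => by
          by_cases hv : v = 1
          · exact ⟨0, fun h => absurd hv h⟩
          · exact (right_bd hj hv).imp fun M hM _ => hM
        choose f hf using this
        exact ⟨(W0 ∪ W1).sup f, fun v hv h a b hab => (hf v h a b hab).trans (Finset.le_sup hv)⟩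
      refine ⟨range fun n => (j (M + 1 + n))⁻¹, infinite_range_of_injective fun a b h => ?_,
        fun I _ hI σ => ?_⟩
      · have := j_inj hj (inv_injective h)
        omega
      · refine ⟨⟨fun t => decide (t⁻¹ ∈ I ∧ σ t⁻¹ = 1), 1, fun t ht => ?_⟩, fun g hg => ?_⟩
        · obtain ⟨n, hn⟩ := hI (of_decide_eq_true ht).1
          exact ⟨M + 1 + n, by rw [one_mul]; exact (inv_injective hn).symm⟩
        · have hw : ∀ t ∈ W0 ∪ W1, t ≠ 1 → (g⁻¹ * t)⁻¹ ∉ I := by
            intro t ht ht1 h
            obtain ⟨n, hn⟩ := hI hg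
            obtain ⟨m, hm⟩ := hI h
            have := hM t ht ht1 (M + 1 + m) (M + 1 + n) (by
              simp only at hn hm
              rw [inv_injective hm, ← hn, inv_inv])
            omega
          have : σ g = 0 ∨ σ g = 1 := by omega
          rcases this with hs | hs <;> rw [hs]
          · refine h0 _ fun t ht => ?_
            rw [smul_val]
            by_cases ht1 : t = 1
            · simp [ht1, hs, x0]
            · have := hw t (Finset.mem_union_left _ ht) ht1
              simp only [this, false_and, decide_false]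
              rfl
          · refine h1 _ fun t ht => ?_
            rw [smul_val]
            by_cases ht1 : t = 1
            · simp [ht1, hs, hg, x1]
            · have := hw t (Finset.mem_union_right _ ht) ht1
              simp only [this, false_and, decide_false]
              simp [x1, ht1]
    · have hne : x0 ≠ x1 := fun h => by
        have : x0.1 1 = x1.1 1 := by rw [h]
        simp [x0, x1] at this
      intro a b hab
      fin_cases a <;> fin_cases b <;> simp_all

end Pool.Agent.Results.MP_6a4cde_an.AllGroups
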